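import Pool.Agent.H694.TT.Defs
import Pool.Agent.R920.MT.Main

/-!
# Tate classes as a system of classes
-/

open CategoryTheory AlgebraicGeometry

universe u v w

namespace Pool.Agent.H694.TT

open Pool.Agent.H914 Pool.Agent.H914.VarClass Pool.Agent.H914.VarClass.Obj
  Pool.Agent.H914.WeilCohomology Pool.Agent.R920.MT
open Pool.Agent.Y133.Half (ClassPred)

variable {k : Type u} [Field k] {𝒱 : VarClass k} {ops : CycleOps 𝒱}
  {W : WeilCohomology.{u, v} ops} {G : GaloisSystem.{u, v, w} W} {X Y : 𝒱.Obj}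

lemma finiteIndex_inf {Γ : Type*} [Group Γ] {H H' : Subgroup Γ} (h : H.FiniteIndex)
    (h' : H'.FiniteIndex) : (H ⊓ H').FiniteIndex := by
  haveI := h
  haveI := h'
  infer_instance

lemma IsTate.gr {j : ℕ} {c : W.H X} (h : IsTate G X j c) : c ∈ W.gr X (2 * j) := h.1

lemma IsTate.zero {j : ℕ} : IsTate G X j 0 :=
  ⟨Submodule.zero_mem _, ⊤, inferInstance, fun g _ => by rw [map_zero, smul_zero]⟩

lemma IsTate.add {j : ℕ} {a b : W.H X} (ha : IsTate G X j a) (hb : IsTate G X j b) :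
    IsTate G X j (a + b) := by
  obtain ⟨ha1, Δ, hΔ, ha2⟩ := ha
  obtain ⟨hb1, Δ', hΔ', hb2⟩ := hb
  refine ⟨Submodule.add_mem _ ha1 hb1, Δ ⊓ Δ', finiteIndex_inf hΔ hΔ', fun g hg => ?_⟩
  rw [map_add, ha2 g hg.1, hb2 g hg.2, smul_add]

lemma IsTate.smul {j : ℕ} (r : W.K) {a : W.H X} (ha : IsTate G X j a) :
    IsTate G X j (r • a) := by
  obtain ⟨ha1, Δ, hΔ, ha2⟩ := ha
  refine ⟨Submodule.smul_mem _ _ ha1, Δ, hΔ, fun g hg => ?_⟩
  rw [map_smul, ha2 g hg, smul_comm]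

lemma IsTate.cl {j : ℕ} {z : X.Cycles} (hz : X.IsCyc j z) : IsTate G X j (W.cl X z) :=
  ⟨W.cl_mem hz, G.cl_act hz⟩

lemma IsTate.mul {i j : ℕ} {a b : W.H X} (ha : IsTate G X i a) (hb : IsTate G X j b) :
    IsTate G X (i + j) (a * b) := by
  obtain ⟨ha1, Δ, hΔ, ha2⟩ := ha
  obtain ⟨hb1, Δ', hΔ', hb2⟩ := hb
  refine ⟨?_, Δ ⊓ Δ', finiteIndex_inf hΔ hΔ', fun g hg => ?_⟩
  · have := W.mul_mem ha1 hb1
    rwa [show 2 * i + 2 * j = 2 * (i + j) by ring] at this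
  · rw [map_mul, ha2 g hg.1, hb2 g hg.2, smul_mul_smul_comm, ← pow_add]

lemma IsTate.map (f : X ⟶ Y) {j : ℕ} {a : W.H Y} (ha : IsTate G Y j a) :
    IsTate G X j (W.map f a) := by
  obtain ⟨ha1, Δ, hΔ, ha2⟩ := ha
  obtain ⟨Δ', hΔ', h⟩ := G.map_act f
  refine ⟨W.map_mem f ha1, Δ ⊓ Δ' ⊓ G.dom Y,
    finiteIndex_inf (finiteIndex_inf hΔ hΔ') (G.acts Y).finite, fun g hg => ?_⟩
  rw [h g ⟨g, hg.2⟩ rfl hg.1.2, ha2 ⟨g, hg.2⟩ hg.1.1, map_smul]

lemma IsTate.push (f : X ⟶ Y) {j l : ℕ} (hl : l + X.dim = j + Y.dim) {a : W.H X}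
    (ha : IsTate G X j a) : IsTate G Y l (W.push f a) := by
  obtain ⟨ha1, Δ, hΔ, ha2⟩ := ha
  obtain ⟨Δ', hΔ', h⟩ := G.map_act f
  refine ⟨?_, Δ ⊓ Δ' ⊓ G.dom X, finiteIndex_inf (finiteIndex_inf hΔ hΔ') (G.acts X).finite,
    fun g hg => ?_⟩
  · have h2 := W.push_mem f ha1
    have e1 : ((2 * j : ℕ) : ℤ) + 2 * ((Y.dim : ℤ) - X.dim) = ((2 * l : ℕ) : ℤ) := by
      push_cast; omega
    rw [e1, grZ_natCast] at h2
    exact h2
  · set gX : G.dom X := ⟨g, hg.2⟩ with hgX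
    have hcoe : (gX : G.Γ) = g := rfl
    apply W.tr_ext
    intro b
    obtain ⟨b, rfl⟩ := (G.ρ Y g).surjective b
    have hne : (G.χ g : W.K) ^ X.dim ≠ 0 := pow_ne_zero _ (Units.ne_zero _)
    apply mul_left_cancel₀ hne
    have h1 : W.tr Y (G.ρ Y g (W.push f a) * G.ρ Y g b) =
        (G.χ g : W.K) ^ Y.dim * W.tr X (a * W.map f b) := by
      rw [← map_mul, (G.acts Y).tr_act, W.tr_push]
    have h3 : W.tr Y ((G.χ g : W.K) ^ l • W.push f a * G.ρ Y g b) =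
        (G.χ g : W.K) ^ l * W.tr X (a * W.map f (G.ρ Y g b)) := by
      rw [smul_mul_assoc, map_smul, W.tr_push, smul_eq_mul]
    have h4 : (G.χ g : W.K) ^ X.dim * W.tr X (a * W.map f b) =
        (G.χ g : W.K) ^ j * W.tr X (a * W.map f (G.ρ Y g b)) := by
      have h5 := (G.acts X).tr_act gX (a * W.map f b)
      rw [map_mul, ha2 gX hg.1.1, h gX g rfl hg.1.2, smul_mul_assoc, map_smul, smul_eq_mul,
        hcoe] at h5
      exact h5.symm
    rw [h1, h3]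
    calc (G.χ g : W.K) ^ X.dim * ((G.χ g : W.K) ^ Y.dim * W.tr X (a * W.map f b))
        = (G.χ g : W.K) ^ Y.dim * ((G.χ g : W.K) ^ X.dim * W.tr X (a * W.map f b)) := by ring
      _ = (G.χ g : W.K) ^ (j + Y.dim) * W.tr X (a * W.map f (G.ρ Y g b)) := by rw [h4]; ring
      _ = (G.χ g : W.K) ^ (l + X.dim) * W.tr X (a * W.map f (G.ρ Y g b)) := by rw [hl]
      _ = _ := by ring

/-- The Tate classes. -/
def tatePred (G : GaloisSystem.{u, v, w} W) : ClassPred W where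
  P := IsTate G
  gr := IsTate.gr
  zero := IsTate.zero
  add := IsTate.add
  smul := IsTate.smul
  cl := IsTate.cl
  mul := IsTate.mul
  map := fun f _ _ => IsTate.map f
  push := fun f _ _ hl _ => IsTate.push f hl

lemma IsTate.lift {D : X.Cycles} {j : ℕ} (hD : X.IsCyc 1 D) (hL : HardLefschetz W X D)
    (hj : 2 * j ≤ X.dim) {x : W.H X} (hx : x ∈ W.gr X (2 * j))
    (h : IsTate G X (X.dim - j) (powMul (W.cl X D) (X.dim - 2 * j) x)) : IsTate G X j x := by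
  obtain ⟨-, Δ, hΔ, h2⟩ := h
  obtain ⟨Δ', hΔ', h3⟩ := G.cl_act hD
  refine ⟨hx, Δ ⊓ Δ', finiteIndex_inf hΔ hΔ', fun g hg => ?_⟩
  have h4 := h2 g hg.1
  have h5 := h3 g hg.2
  set m := X.dim - 2 * j with hm
  have hw : G.ρ X g (W.cl X D ^ m) = (G.χ g : W.K) ^ m • W.cl X D ^ m := by
    rw [map_pow, h5, pow_one, smul_pow]
  have hne : (G.χ g : W.K) ^ m ≠ 0 := pow_ne_zero _ (Units.ne_zero _)
  have h6 : W.cl X D ^ m * (G.ρ X g x - (G.χ g : W.K) ^ j • x) = 0 := by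
    unfold powMul at h4
    rw [map_mul, hw, smul_mul_assoc, show X.dim - j = m + j by omega, pow_add, mul_smul] at h4
    have h7 := smul_right_injective _ hne h4
    rw [mul_sub, h7, mul_smul_comm, sub_self]
  have h7 : G.ρ X g x - (G.χ g : W.K) ^ j • x = 0 := by
    refine (hL (2 * j) hj).1 _ (Submodule.sub_mem _ ((G.acts X).gr_mem g _ _ hx)
      (Submodule.smul_mem _ _ hx)) ?_
    rw [LinearMap.pow_mulLeft, LinearMap.mulLeft_apply]
    exact h6
  exact sub_eq_zero.1 h7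

/-- Tate classes form a system. -/
lemma isSystem_tate (G : GaloisSystem.{u, v, w} W) : IsSystem (W := W) (IsTate G) where
  lin X j := ⟨{ carrier := {c | IsTate G X j c}
                add_mem' := IsTate.add
                zero_mem' := IsTate.zero
                smul_mem' := fun r _ => IsTate.smul r }, fun _ => Iff.rfl⟩
  cl _ _ _ hz := IsTate.cl hz
  mul _ _ _ _ _ ha hb := IsTate.mul ha hb
  map _ _ f _ _ h := IsTate.map f h
  push _ _ f _ _ _ hl h := IsTate.push f hl h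
  lift _ _ _ hD hL hj _ hx h := IsTate.lift hD hL hj hx h

/-- Motivated classes are Tate classes. -/
lemma IsMotivated.tate {j : ℕ} {c : W.H X} (h : IsMotivated W X j c) : IsTate G X j c :=
  h _ (isSystem_tate G)

end Pool.Agent.H694.TT
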