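import Pool.Agent.H694.TT.LSys
import Pool.Agent.R920.DB.Main
import Pool.Agent.R920.PL.Law

/-!
# The tower of the algebraic, the motivated and the Tate classes
-/

open CategoryTheory AlgebraicGeometry TensorProduct

universe u v w

namespace Pool.Agent.H694.LA

open Module
open Pool.Agent.H914 Pool.Agent.H914.VarClass Pool.Agent.H914.VarClass.Obj
  Pool.Agent.H914.WeilCohomology Pool.Agent.R920.MT Pool.Agent.R920.DB
open Pool.Agent.Y133.Half (pw HasIndex dimBy cycRank algDim AtMostHalf ClassPred algSet dimOf)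

variable {k : Type u} [Field k] {𝒱 : VarClass k} {ops : CycleOps 𝒱}
  {W : WeilCohomology.{u, v} ops} {L : Type v} [Field L] [Algebra W.K L] {X Y : 𝒱.Obj}

lemma hasIndex_unique {t s : ℕ → ℕ} {N N' : ℕ∞} (h : HasIndex t s N) (h' : HasIndex t s N') :
    N = N' := by
  have := tendsto_nhds_unique h h'
  exact_mod_cast this

lemma mul_eq_one {N M : ℕ∞} (h1 : 1 ≤ N) (h2 : 1 ≤ M) : N * M = 1 ↔ N = 1 ∧ M = 1 := by
  constructor
  · intro h
    have h3 : N ≤ 1 := by
      calc N = N * 1 := (mul_one N).symm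
        _ ≤ N * M := mul_le_mul_right h2 N
        _ = 1 := h
    have h4 : M ≤ 1 := by
      calc M = 1 * M := (one_mul M).symm
        _ ≤ N * M := mul_le_mul_left h1 M
        _ = 1 := h
    exact ⟨le_antisymm h3 h1, le_antisymm h4 h2⟩
  · rintro ⟨rfl, rfl⟩
    exact one_mul 1

lemma algDim_base (W : WeilCohomology.{u, v} ops) (L : Type v) [Field L] [Algebra W.K L]
    (X : 𝒱.Obj) : algDim (baseW W L) X = algDim W X := by
  have h1 : Submodule.span (baseW W L).K (algSet (baseW W L) X) =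
      (Submodule.span W.K (algSet W X)).baseChange L := by
    rw [Submodule.baseChange_span]
    have h2 : algSet (baseW W L) X = (TensorProduct.mk W.K L (W.H X) 1) '' algSet W X := by
      ext c
      constructor
      · rintro ⟨j, z, hz, rfl⟩
        exact ⟨W.cl X z, ⟨j, z, hz, rfl⟩, rfl⟩
      · rintro ⟨_, ⟨j, z, hz, rfl⟩, rfl⟩
        exact ⟨j, z, hz, rfl⟩
    rw [h2]
    rfl
  unfold algDim dimOf Set.finrank
  rw [h1]
  exact Pool.Agent.Y129.finrank_baseChange L _

lemma half_left {a m t : ℕ → ℕ} (h : AtMostHalf m t) (ham : ∀ n, a n ≤ m n) :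
    AtMostHalf a t := by
  intro ε hε
  obtain ⟨n₀, hn₀⟩ := h ε hε
  refine ⟨n₀, fun n hn => le_trans ?_ (hn₀ n hn)⟩
  exact_mod_cast ham n

lemma half_right {a m t : ℕ → ℕ} (h : AtMostHalf a m) (hmt : ∀ n, m n ≤ t n) :
    AtMostHalf a t := by
  intro ε hε
  obtain ⟨n₀, hn₀⟩ := h ε hε
  refine ⟨n₀, fun n hn => (hn₀ n hn).trans ?_⟩
  refine mul_le_mul_of_nonneg_left ?_ (by positivity)
  exact_mod_cast hmt n

lemma algDim_le (W : WeilCohomology.{u, v} ops) (X : 𝒱.Obj) :
    algDim W X ≤ dimBy W (IsMotivated W) X := by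
  rw [Pool.Agent.Y133.Half.algDim_eq]
  refine le_trans ?_ (ClassPred.dimBy_eq (motPred W) X).ge
  exact Submodule.finrank_mono ClassPred.alg_le

lemma dimBy_mono {W : WeilCohomology.{u, v} ops} {Q R : ClassPred W}
    (hQR : ∀ {Z : 𝒱.Obj} {j : ℕ} {c : W.H Z}, Q.P Z j c → R.P Z j c) (X : 𝒱.Obj) :
    dimBy W Q.P X ≤ dimBy W R.P X := by
  rw [ClassPred.dimBy_eq, ClassPred.dimBy_eq]
  exact Submodule.finrank_mono (ClassPred.sys_le hQR X)

lemma spanCycles_eq (W : WeilCohomology.{u, v} ops) (X : 𝒱.Obj) (j : ℕ) :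
    spanCycles W X j = Submodule.span W.K (algClass W X j) := by
  apply le_antisymm
  · refine Submodule.span_le.2 ?_
    rintro _ ⟨i, hi, z, hz, rfl⟩
    have : i = j := by exact_mod_cast hi
    subst this
    exact Submodule.subset_span ⟨z, hz, rfl⟩
  · refine Submodule.span_mono ?_
    rintro _ ⟨z, hz, rfl⟩
    exact ⟨j, rfl, z, hz, rfl⟩

lemma spanCycles_base (X : 𝒱.Obj) (j : ℕ) (c : HT W L X) :
    c ∈ spanCycles (baseW W L) X j ↔ c ∈ Submodule.span L (incl L '' algClass W X j) := by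
  rw [spanCycles_eq]
  have h2 : algClass (baseW W L) X j = (incl L '' algClass W X j : Set (HT W L X)) := by
    ext c
    constructor
    · rintro ⟨z, hz, rfl⟩
      exact ⟨W.cl X z, ⟨z, hz, rfl⟩, rfl⟩
    · rintro ⟨_, ⟨z, hz, rfl⟩, rfl⟩
      exact ⟨z, hz, rfl⟩
  rw [h2]
  rfl

lemma mot_span (X : 𝒱.Obj) (j : ℕ) (c : HT W L X) :
    c ∈ Submodule.span L (incl L '' {a | IsMotivated W X j a}) ↔
      IsMotivated (baseW W L) X j c := by
  constructor
  · intro h
    refine Submodule.span_induction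
      (p := fun (x : HT W L X) _ => IsMotivated (baseW W L) X j x) ?_ ?_ ?_ ?_ h
    · rintro _ ⟨a, ha, rfl⟩
      exact TT.mot_base ha
    · exact (motPred (baseW W L)).zero
    · intro x y _ _ hx hy
      exact (motPred (baseW W L)).add hx hy
    · intro a x _ hx
      exact (motPred (baseW W L)).smul a hx
  · intro h
    let S : Submodule L (HT W L X) := Submodule.span L (incl L '' {a | IsMotivated W X j a})
    refine TT.base_ind (P := fun c => S.carrier c) ?_ ?_ ?_ (TT.mot_iff.1 h)
    · exact S.zero_mem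
    · intro x y hx hy; exact S.add_mem hx hy
    · intro l a ha
      change (show HT W L X from TT.ten L l a) ∈ S
      have h1 : (show HT W L X from TT.ten L l a) = l • (incl L a : HT W L X) := by
        have h2 : l • ((1 : L) ⊗ₜ[W.K] a) = (l * 1) ⊗ₜ[W.K] a := TensorProduct.smul_tmul' _ _ _
        rw [mul_one] at h2
        exact h2.symm
      rw [h1]
      exact Submodule.smul_mem _ _ (Submodule.subset_span ⟨a, ha, rfl⟩)

lemma tateDim_eq (G : GaloisAction.{u, v, w} W L) (X : 𝒱.Obj) :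
    tateDim G X = dimBy (baseW W L) (TT.IsTate (toSys G)) X := by
  have : {c : HT W L X | ∃ j, IsTate G X j c} = {c | ∃ j, TT.IsTate (toSys G) X j c} := by
    ext c
    exact exists_congr fun j => isTate_iff G
  unfold tateDim
  rw [this]
  rfl

/-- A system of classes. -/
def toPred (P : Property W) (hP : IsSystem P) (hgr : ∀ X j c, P X j c → c ∈ W.gr X (2 * j)) :
    ClassPred W where
  P := P
  gr := fun h => hgr _ _ _ h
  zero := (hP.lin _ _).zero
  add := fun ha hb => (hP.lin _ _).add ha hb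
  smul := fun r _ ha => (hP.lin _ _).smul r ha
  cl := fun hz => hP.cl _ _ _ hz
  mul := fun ha hb => hP.mul _ _ _ _ _ ha hb
  map f _ _ h := hP.map _ _ f _ _ h
  push f _ _ hl _ h := hP.push _ _ f _ _ _ hl h

theorem main (W : WeilCohomology.{u, v} ops) [Algebra W.K ℝ] (hW : IsPolarised W) (X : 𝒱.Obj)
    [Nontrivial (W.H X)] {m a r : ℕ → ℕ} (hm : ∀ n, m n = dimBy W (IsMotivated W) (pw X n))
    (ha : ∀ n, a n = algDim W (pw X n)) (hr : ∀ n, r n = cycRank ops (pw X n)) :
    ∃ M : ℕ∞, 1 ≤ M ∧ HasIndex m r M ∧ (M = 1 ↔ AlgOnPowers (IsMotivated W) X) ∧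
      (∀ (P : Property W) (p : ℕ → ℕ), IsGradedSystem P → (∀ n, p n = dimBy W P (pw X n)) →
        ∃ N : ℕ∞, 1 ≤ N ∧ HasIndex p m N ∧ HasIndex p r (N * M) ∧ (N = 1 ↔ MotOnPowers P X) ∧
          (N * M = 1 ↔ AlgOnPowers P X)) ∧
      ∀ (L : Type v) [Field L] [Algebra W.K L] (G : GaloisAction.{u, v, w} W L) (t : ℕ → ℕ),
        (∀ n, t n = tateDim G (pw X n)) →
        ∃ N : ℕ∞, 1 ≤ N ∧ HasIndex t m N ∧ HasIndex t r (N * M) ∧
          (N = 1 ↔ TateAreMotivated G X) ∧ (N * M = 1 ↔ TateOnPowers G X) ∧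
          (N ≠ 1 → AtMostHalf m t) ∧ (N * M ≠ 1 → AtMostHalf a t) := by
  obtain rfl := funext hm
  obtain rfl := funext ha
  obtain rfl := funext hr
  obtain ⟨-, M, -, h2, -, h4, -, -, h7, -, -, -, -⟩ :=
    (motPred W).tower (motPred W) (fun h => h) X (fun n => mot_nondeg hW (pw X n))
  have h7' : M = 1 ↔ AlgOnPowers (W := W) (IsMotivated W) X := by
    rw [h7]
    exact forall_congr' fun n => forall_congr' fun j => forall_congr' fun c =>
      imp_congr_right fun _ => by rw [spanCycles_eq]; rfl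
  refine ⟨M, h2, h4, h7', ?_, ?_⟩
  · rintro P p ⟨hP, hgr⟩ hp
    obtain rfl := funext hp
    obtain ⟨N, M', k1, k2, k3, k4, k5, k6, k7, -, -, -, -⟩ :=
      (motPred W).tower (toPred P hP hgr) (fun h => h P hP) X (fun n => mot_nondeg hW (pw X n))
    obtain rfl : M' = M := hasIndex_unique k4 h4
    refine ⟨N, k1, k3, k5, k6, ?_⟩
    rw [mul_eq_one k1 k2, k6, h7']
    constructor
    · rintro ⟨l1, l2⟩ n j c hc
      exact l2 n j c (l1 n j c hc)
    · intro l1
      refine ⟨fun n j c hc => ?_, fun n j c hc => l1 n j c (hc P hP)⟩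
      have h8 := l1 n j c hc
      unfold InAlgSpan at h8
      rw [← spanCycles_eq] at h8
      exact Pool.Agent.R920.PL.span_le_deg (motPred W) j h8
  · intro L _ _ G t ht
    obtain rfl := funext ht
    have : Nontrivial ((baseW W L).H X) := by
      obtain ⟨x, hx⟩ := exists_ne (0 : W.H X)
      refine ⟨TT.ten L 1 x, 0, fun h0 => hx ?_⟩
      exact tmul_injective (K := W.K) (L := L) x h0
    obtain ⟨N, M', k1, k2, k3, k4, k5, k6, k7, k8, k9, -, -⟩ :=
      (motPred (baseW W L)).tower (TT.tatePred (toSys G)) (fun h => TT.IsMotivated.tate h) X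
        (fun n => TT.nondeg_base (mot_nondeg hW (pw X n)))
    have e1 : (fun n => dimBy (baseW W L) (motPred (baseW W L)).P (pw X n)) =
        fun n => dimBy W (IsMotivated W) (pw X n) := funext fun n => TT.dimBy_base (pw X n)
    have e2 : (fun n => algDim (baseW W L) (pw X n)) = fun n => algDim W (pw X n) :=
      funext fun n => algDim_base W L (pw X n)
    have e3 : (fun n => dimBy (baseW W L) (TT.tatePred (toSys G)).P (pw X n)) =
        fun n => tateDim G (pw X n) := funext fun n => (tateDim_eq G (pw X n)).symm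
    rw [e1, e3] at k3 k8
    rw [e1] at k4 k9
    rw [e2] at k9
    rw [e3] at k5
    obtain rfl : M' = M := hasIndex_unique k4 h4
    have k6' : N = 1 ↔ TateAreMotivated G X := by
      rw [k6]
      exact forall_congr' fun n => forall_congr' fun j => forall_congr' fun c =>
        imp_congr (isTate_iff G).symm (mot_span (pw X n) j c).symm
    refine ⟨N, k1, k3, k5, k6', ?_, k8, ?_⟩
    · rw [mul_eq_one k1 k2, k6, k7]
      constructor
      · rintro ⟨l1, l2⟩ n j c hc
        exact (spanCycles_base (pw X n) j c).1 (l2 n j c (l1 n j c ((isTate_iff G).1 hc)))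
      · intro l1
        have l2 : ∀ n j (c : HT W L (pw X n)), TT.IsTate (toSys G) (pw X n) j c →
            c ∈ spanCycles (baseW W L) (pw X n) j := fun n j c hc =>
          (spanCycles_base (pw X n) j c).2 (l1 n j c ((isTate_iff G).2 hc))
        refine ⟨fun n j c hc => ?_, fun n j c hc => l2 n j c (TT.IsMotivated.tate hc)⟩
        exact Pool.Agent.R920.PL.span_le_deg (motPred (baseW W L)) j (l2 n j c hc)
    · intro hNM
      rw [Ne, mul_eq_one k1 k2, not_and_or] at hNM
      rcases hNM with hN | hM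
      · exact half_left (k8 hN) fun n => algDim_le W (pw X n)
      · refine half_right (k9 hM) fun n => ?_
        rw [← TT.dimBy_base (W := W) (L := L), tateDim_eq]
        exact dimBy_mono (Q := motPred (baseW W L)) (R := TT.tatePred (toSys G))
          (fun h => TT.IsMotivated.tate h) (pw X n)

end Pool.Agent.H694.LA
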