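import Pool.Agent.R920.MT.Defs
import Pool.Agent.Y133.Half.PairDefs
import Pool.Agent.H914R2.WBase2

/-!
# Actions of a Galois group up to finite extensions of the ground field, and Tate classes: definitions
-/

open CategoryTheory AlgebraicGeometry

universe u v w

namespace Pool.Agent.H694.TT

open Pool.Agent.H914 Pool.Agent.H914.VarClass Pool.Agent.H914.VarClass.Obj
  Pool.Agent.H914.WeilCohomology

section Alg

variable {K : Type*} [Field K] {A : Type*} [Ring A] [Algebra K A] {Γ : Type*} [Group Γ]

/-- The subgroup `dom` of the group `Γ` acts through `ρ` on the graded algebra `A`, preserving the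
degrees, and multiplying the orientation `tr` (of dimension `n`) by the power `n` of the character
`χ`. -/
structure ActsOn (χ : Γ →* Kˣ) (gr : ℕ → Submodule K A) (n : ℕ) (tr : A →ₗ[K] K)
    (dom : Subgroup Γ) (ρ : dom →* (A ≃ₐ[K] A)) : Prop where
  finite : dom.FiniteIndex
  gr_mem : ∀ (g : dom) (i : ℕ) (a : A), a ∈ gr i → ρ g a ∈ gr i
  tr_act : ∀ (g : dom) (a : A), tr (ρ g a) = (χ g : K) ^ n * tr a

/-- All elements of a subgroup of finite index which act on `A` multiply `c` by the power `j` of the
character `χ`. -/
def FixedUpTo (χ : Γ →* Kˣ) (dom : Subgroup Γ) (ρ : dom →* (A ≃ₐ[K] A)) (j : ℕ) (c : A) : Prop :=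
  ∃ Δ : Subgroup Γ, Δ.FiniteIndex ∧ ∀ g : dom, (g : Γ) ∈ Δ → ρ g c = (χ g : K) ^ j • c

/-- The map `f` commutes with the action of a subgroup of finite index. -/
def CommutesUpTo {B : Type*} [Ring B] [Algebra K B] {dom dom' : Subgroup Γ}
    (ρ : dom →* (A ≃ₐ[K] A)) (ρ' : dom' →* (B ≃ₐ[K] B)) (f : B → A) : Prop :=
  ∃ Δ : Subgroup Γ, Δ.FiniteIndex ∧ ∀ (g : dom) (g' : dom'), (g : Γ) = g' → (g : Γ) ∈ Δ →
    ∀ b, ρ g (f b) = f (ρ' g' b)

end Alg

variable {k : Type u} [Field k] {𝒱 : VarClass k} {ops : CycleOps 𝒱}

/-- The action of the Galois group of a field `k₁`, finitely generated over its prime field and with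
algebraic closure `k`, on the cohomology of the varieties over `k`: each variety `X` has a model over
a finite extension of `k₁`, so that a subgroup `dom X` of finite index of the Galois group `Γ` acts on
`H(X)`; the action respects the products, the degrees, and the orientation up to the action `χ` on
the Tate twists (which are suppressed). Morphisms and cycles are defined over finite extensions:
pull-backs commute with the action of a subgroup of finite index, and a subgroup of finite index
multiplies the class of a cycle of codimension `j` by `χ ^ j`. -/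
structure GaloisSystem (W : WeilCohomology.{u, v} ops) where
  /-- the group -/
  Γ : Type w
  [group : Group Γ]
  /-- the character -/
  χ : Γ →* W.Kˣ
  /-- the subgroups -/
  dom : 𝒱.Obj → Subgroup Γ
  /-- the actions -/
  ρ : ∀ X, dom X →* (W.H X ≃ₐ[W.K] W.H X)
  acts : ∀ X, ActsOn χ (W.gr X) X.dim (W.tr X) (dom X) (ρ X)
  map_act : ∀ {X Y : 𝒱.Obj} (f : X ⟶ Y), CommutesUpTo (ρ X) (ρ Y) (W.map f)
  cl_act : ∀ {X : 𝒱.Obj} {j : ℕ} {z : X.Cycles}, X.IsCyc j z →
    FixedUpTo χ (dom X) (ρ X) j (W.cl X z)

attribute [instance] GaloisSystem.group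

variable {W : WeilCohomology.{u, v} ops}

/-- The Tate classes of codimension `j` on `X`: the classes `c` in `H^(2 j)(X)` such that `g c` is
`χ(g) ^ j c` for all `g` in a subgroup of finite index. -/
def IsTate (G : GaloisSystem.{u, v, w} W) (X : 𝒱.Obj) (j : ℕ) (c : W.H X) : Prop :=
  c ∈ W.gr X (2 * j) ∧ FixedUpTo G.χ (G.dom X) (G.ρ X) j c

/-- The Tate conjecture for `X`, in all codimensions `j`: all Tate classes are linear combinations of
classes of algebraic cycles, with coefficients in the coefficient field. -/
def TateConj (G : GaloisSystem.{u, v, w} W) (X : 𝒱.Obj) : Prop :=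
  ∀ j c, IsTate G X j c → c ∈ spanCycles W X j

end Pool.Agent.H694.TT
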