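import Pool.Agent.H914R2.StdDefs

/-!
# Galois actions on a Weil cohomology theory and Tate classes: definitions
-/

open CategoryTheory AlgebraicGeometry

universe u v w

namespace Pool.Agent.H694.EL

open Pool.Agent.H914 Pool.Agent.H914.VarClass Pool.Agent.H914.VarClass.Obj
  Pool.Agent.H914.WeilCohomology

variable {k : Type u} [Field k] {𝒱 : VarClass k} {ops : CycleOps 𝒱}
  {W : WeilCohomology.{u, v} ops} {X Y : 𝒱.Obj}

/-- The map `s` multiplies `c` by `x ^ j`. -/
def MulBy (x : W.K) (j : ℕ) (c : W.H X) (s : W.H X → W.H X) : Prop := s c = x ^ j • c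

/-- The class `c` has degree `i`. -/
def HasDeg (i : ℕ) (c : W.H X) : Prop := c ∈ W.gr X i

/-- The map `s` is an automorphism of the cohomology of `X` which respects the products and the
degrees and multiplies the orientation by `x ^ dim X`. -/
structure IsAut (x : W.K) (s : W.H X → W.H X) : Prop where
  bij : Function.Bijective s
  lin : ∀ (l : W.K) b c, s (b + l • c) = s b + l • s c
  mul : ∀ b c, s (b * c) = s b * s c
  deg : ∀ i c, HasDeg i c → HasDeg i (s c)
  tr : ∀ c, W.tr X (s c) = x ^ X.dim * W.tr X c

/-- A property of the elements of the subgroup `dom` holds for the elements of a subgroup of finite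
index. -/
def UpToFin {Γ : Type w} [Group Γ] (dom : Subgroup Γ) (p : Γ → Prop) : Prop :=
  ∃ Δ : Subgroup Γ, Δ.FiniteIndex ∧ ∀ g ∈ Δ, g ∈ dom → p g

variable (W)

/-- The action of the Galois group `Γ` of a field `k₁` finitely generated over its prime field, with
separable closure `k`, on the cohomology of the varieties over `k`. Each variety
`X` has a model over a finite extension of `k₁`, so a subgroup `dom X` of finite index of `Γ` acts
on the cohomology of `X`, respecting the products and the degrees and acting on the orientation by
the power `dim X` of a character `χ` (the inverse of the cyclotomic character; Tate twists are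
suppressed). Morphisms and cycles are defined over finite extensions: pull-backs commute with the
action of a subgroup of finite index, and a subgroup of finite index multiplies the class of a cycle
of codimension `j` by `χ ^ j`. -/
structure GaloisAction where
  /-- the group -/
  Γ : Type w
  [group : Group Γ]
  /-- the character -/
  χ : Γ → W.K
  ne : ∀ g, χ g ≠ 0
  char : ∀ g h, χ (g * h) = χ g * χ h
  /-- the subgroups -/
  dom : 𝒱.Obj → Subgroup Γ
  /-- the actions (used for the elements of `dom X` only) -/
  act : ∀ X, Γ → W.H X → W.H X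
  finite : ∀ X, (dom X).FiniteIndex
  act_mul : ∀ X, ∀ g ∈ dom X, ∀ h ∈ dom X, ∀ c, act X (g * h) c = act X g (act X h c)
  aut : ∀ X, ∀ g ∈ dom X, IsAut (χ g) (act X g)
  map : ∀ (X Y : 𝒱.Obj) (f : X ⟶ Y),
    UpToFin (dom X ⊓ dom Y) fun g => ∀ b, act X g (W.map f b) = W.map f (act Y g b)
  cyc : ∀ (X : 𝒱.Obj) (j : ℕ) (z : X.Cycles), X.IsCyc j z →
    UpToFin (dom X) fun g => MulBy (χ g) j (W.cl X z) (act X g)

attribute [instance] GaloisAction.group

variable {W}

/-- The Tate classes of codimension `j` on `X`: the classes `c` of degree `2 j` such that `g c` is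
`χ(g) ^ j c` for all `g` in a subgroup of finite index. -/
def IsTate (G : GaloisAction.{u, v, w} W) (X : 𝒱.Obj) (j : ℕ) (c : W.H X) : Prop :=
  HasDeg (2 * j) c ∧ UpToFin (G.dom X) fun g => MulBy (G.χ g) j c (G.act X g)

/-- The dimension of the space of the Tate classes of codimension `j` on `X`. -/
noncomputable def tateRank (G : GaloisAction.{u, v, w} W) (X : 𝒱.Obj) (j : ℕ) : ℕ :=
  Set.finrank W.K {c | IsTate G X j c}

/-- The classes of the algebraic cycles of codimension `j` on `X`. -/
def algClass (W : WeilCohomology.{u, v} ops) (X : 𝒱.Obj) (j : ℕ) : Set (W.H X) :=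
  {c | ∃ z, X.IsCyc j z ∧ W.cl X z = c}

/-- The Tate conjecture for `X`, in all codimensions `j`: all Tate classes are linear combinations of
classes of algebraic cycles, with coefficients in the coefficient field. -/
def TateConj (G : GaloisAction.{u, v, w} W) (X : 𝒱.Obj) : Prop :=
  ∀ j c, IsTate G X j c → c ∈ Submodule.span W.K (algClass W X j)

end Pool.Agent.H694.EL
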