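import Pool.Agent.H694.TT.EDefs
import Pool.Agent.H694.TT.Pred
import Pool.Agent.R920.PL.Law

/-!
# The effective index law for Tate classes
-/

open CategoryTheory AlgebraicGeometry

universe u v w

namespace Pool.Agent.H694.EL

open Pool.Agent.H914 Pool.Agent.H914.VarClass Pool.Agent.H914.VarClass.Obj
  Pool.Agent.H914.WeilCohomology

variable {k : Type u} [Field k] {𝒱 : VarClass k} {ops : CycleOps 𝒱}
  {W : WeilCohomology.{u, v} ops} {X Y : 𝒱.Obj}

lemma IsAut.add {x : W.K} {s : W.H X → W.H X} (h : IsAut x s) (b c : W.H X) :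
    s (b + c) = s b + s c := by
  have := h.lin 1 b c
  rwa [one_smul, one_smul] at this

lemma IsAut.smul {x : W.K} {s : W.H X → W.H X} (h : IsAut x s) (l : W.K) (c : W.H X) :
    s (l • c) = l • s c := by
  have h0 : s 0 = 0 := by
    have := h.add 0 0
    rw [add_zero] at this
    exact left_eq_add.1 this
  have := h.lin l 0 c
  rwa [zero_add, h0, zero_add] at this

/-- The automorphism. -/
noncomputable def autEquiv {x : W.K} {s : W.H X → W.H X} (h : IsAut x s) :
    W.H X ≃ₐ[W.K] W.H X :=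
  AlgEquiv.ofBijective
    (AlgHom.ofLinearMap
      { toFun := s
        map_add' := h.add
        map_smul' := h.smul }
      (by
        obtain ⟨b, hb⟩ := h.bij.2 1
        change s 1 = 1
        have h1 : s 1 * s b = s b := by rw [← h.mul, one_mul]
        rw [hb, mul_one] at h1
        exact h1)
      h.mul)
    h.bij

variable (G : GaloisAction.{u, v, w} W)

/-- The character. -/
noncomputable def chiHom : G.Γ →* W.Kˣ :=
  MonoidHom.mk' (fun g => Units.mk0 (G.χ g) (G.ne g)) fun g h => Units.ext (G.char g h)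

/-- The action of the subgroup. -/
noncomputable def actHom (X : 𝒱.Obj) : G.dom X →* (W.H X ≃ₐ[W.K] W.H X) :=
  MonoidHom.mk' (fun g => autEquiv (G.aut X g g.2)) fun g h =>
    AlgEquiv.ext fun c => G.act_mul X g g.2 h h.2 c

lemma actHom_apply (X : 𝒱.Obj) (g : G.dom X) (c : W.H X) :
    actHom G X g c = G.act X g c := rfl

/-- The system. -/
noncomputable def toSys : TT.GaloisSystem.{u, v, w} W where
  Γ := G.Γ
  χ := chiHom G
  dom := G.dom
  ρ := actHom G
  acts X :=
    { finite := G.finite X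
      gr_mem := fun g i a ha => (G.aut X g g.2).deg i a ha
      tr_act := fun g a => (G.aut X g g.2).tr a }
  map_act {X Y} f := by
    obtain ⟨Δ, hΔ, h⟩ := G.map X Y f
    refine ⟨Δ, hΔ, fun g g' hgg hg b => ?_⟩
    have h1 := h g hg ⟨g.2, hgg ▸ g'.2⟩ b
    rw [actHom_apply, actHom_apply, ← hgg, h1]
  cl_act {X j z} hz := by
    obtain ⟨Δ, hΔ, h⟩ := G.cyc X j z hz
    exact ⟨Δ, hΔ, fun g hg => h g hg g.2⟩

lemma isTate_iff {j : ℕ} {c : W.H X} : IsTate G X j c ↔ TT.IsTate (toSys G) X j c := by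
  unfold IsTate TT.IsTate
  refine and_congr_right fun _ => ?_
  constructor
  · rintro ⟨Δ, hΔ, h⟩
    exact ⟨Δ, hΔ, fun g hg => h g.1 hg g.2⟩
  · rintro ⟨Δ, hΔ, h⟩
    exact ⟨Δ, hΔ, fun g hg hd => h ⟨g, hd⟩ hg⟩

lemma spanCycles_eq (W : WeilCohomology.{u, v} ops) (X : 𝒱.Obj) (j : ℕ) :
    spanCycles W X j = Submodule.span W.K (algClass W X j) := by
  apply le_antisymm
  · refine Submodule.span_le.2 ?_
    rintro _ ⟨i, hi, z, hz, rfl⟩
    have : i = j := by exact_mod_cast hi
    subst this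
    exact Submodule.subset_span ⟨z, hz, rfl⟩
  · refine Submodule.span_mono ?_
    rintro _ ⟨z, hz, rfl⟩
    exact ⟨j, rfl, z, hz, rfl⟩

lemma tateRank_eq (Y : 𝒱.Obj) (j : ℕ) : tateRank G Y j =
    Module.finrank W.K (Pool.Agent.R920.PL.deg (TT.tatePred (toSys G)) Y j) := by
  have h0 : {c : W.H Y | IsTate G Y j c} =
      (Pool.Agent.R920.PL.deg (TT.tatePred (toSys G)) Y j : Set (W.H Y)) := by
    ext c
    exact isTate_iff G
  rw [tateRank, Set.finrank, h0, Submodule.span_eq]

end Pool.Agent.H694.EL
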