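import Pool.Agent.R920.MT.Defs
import Pool.Agent.Y133.Half.PwDefs

/-!
# The extension of the coefficients, Galois actions and Tate classes: definitions

Let `W` be a Weil cohomology theory with coefficient field `K` (in the intended use, the cohomology
`X ↦ H(X(ℂ), ℚ)` for a field `k ⊆ ℂ`), and let `L` be a field containing `K` (in the intended use,
`L = ℚ_ℓ`). By the comparison isomorphism `L ⊗ H(X)` is the cohomology with coefficients in `L` (in
the intended use, the `ℓ`-adic étale cohomology).
-/

open CategoryTheory AlgebraicGeometry TensorProduct

universe u v w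

namespace Pool.Agent.H694.LA

open Pool.Agent.H914 Pool.Agent.H914.VarClass Pool.Agent.H914.VarClass.Obj
  Pool.Agent.H914.WeilCohomology Pool.Agent.R920.MT
open Pool.Agent.Y133.Half (pw)

variable {k : Type u} [Field k] {𝒱 : VarClass k} {ops : CycleOps 𝒱}

/-- The cohomology of `X` with coefficients in `L`. -/
def HT (W : WeilCohomology.{u, v} ops) (L : Type v) [Field L] [Algebra W.K L] (X : 𝒱.Obj) :
    Type v :=
  L ⊗[W.K] W.H X

section

variable (W : WeilCohomology.{u, v} ops) (L : Type v) [Field L] [Algebra W.K L] {X Y : 𝒱.Obj}

noncomputable instance instRingHT : Ring (HT W L X) := Algebra.TensorProduct.instRing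

noncomputable instance instAlgebraHT : Algebra L (HT W L X) :=
  Algebra.TensorProduct.leftAlgebra

variable {W}

/-- The class `c`, with coefficients in `L`. -/
noncomputable def incl (c : W.H X) : HT W L X := (1 : L) ⊗ₜ[W.K] c

/-- The class `c` has degree `i`. -/
def HasDeg (i : ℕ) (c : HT W L X) : Prop :=
  c ∈ Submodule.span L (incl L '' (W.gr X i : Set (W.H X)))

/-- The map `F` is the pull-back by `f`, with coefficients in `L`. -/
structure IsPull (f : X ⟶ Y) (F : HT W L Y → HT W L X) : Prop where
  lin : ∀ (l : L) b c, F (b + l • c) = F b + l • F c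
  incl : ∀ b, F (incl L b) = incl L (W.map f b)

end

variable {W : WeilCohomology.{u, v} ops} {L : Type v} [Field L] [Algebra W.K L] {X Y : 𝒱.Obj}

/-- The map `s` multiplies `c` by `x ^ j`. -/
def MulBy (x : L) (j : ℕ) (c : HT W L X) (s : HT W L X → HT W L X) : Prop := s c = x ^ j • c

/-- The map `s` is an automorphism of the cohomology of `X` with coefficients in `L` which respects
the products and the degrees and multiplies the classes of degree `2 dim X` by `x ^ dim X`. -/
structure IsAut (x : L) (s : HT W L X → HT W L X) : Prop where
  bij : Function.Bijective s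
  lin : ∀ (l : L) b c, s (b + l • c) = s b + l • s c
  mul : ∀ b c, s (b * c) = s b * s c
  deg : ∀ i c, HasDeg L i c → HasDeg L i (s c)
  top : ∀ c, HasDeg L (2 * X.dim) c → MulBy x X.dim c s

/-- A property of the elements of the subgroup `dom` holds for the elements of a subgroup of finite
index. -/
def UpToFin {Γ : Type w} [Group Γ] (dom : Subgroup Γ) (p : Γ → Prop) : Prop :=
  ∃ Δ : Subgroup Γ, Δ.FiniteIndex ∧ ∀ g ∈ Δ, g ∈ dom → p g

/-- The map `F` commutes with the maps `s` and `s'`. -/
def Comm (F : HT W L Y → HT W L X) (s : HT W L X → HT W L X) (s' : HT W L Y → HT W L Y) : Prop :=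
  ∀ b, s (F b) = F (s' b)

variable (W L)

/-- The action of the Galois group `Γ` of a field `k₁` finitely generated over `ℚ` with algebraic
closure `k` on the cohomology, with coefficients in `L`, of the varieties over `k`. Each variety
`X` has a model over a finite extension of `k₁`, so a subgroup `dom X` of finite index of `Γ` acts
on the cohomology of `X`, respecting the products and the degrees; the action on the
cohomology of degree `2 dim X` is given by the power `dim X` of a character `χ` (the inverse of the
cyclotomic character). Morphisms and cycles are defined over finite extensions: pull-backs commute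
with the action of a subgroup of finite index, and a subgroup of finite index multiplies the class
of a cycle of codimension `j` by `χ ^ j`. -/
structure GaloisAction where
  /-- the group -/
  Γ : Type w
  [group : Group Γ]
  /-- the character -/
  χ : Γ → L
  ne : ∀ g, χ g ≠ 0
  char : ∀ g h, χ (g * h) = χ g * χ h
  /-- the subgroups -/
  dom : 𝒱.Obj → Subgroup Γ
  /-- the actions (used for the elements of `dom X` only) -/
  act : ∀ X, Γ → HT W L X → HT W L X
  finite : ∀ X, (dom X).FiniteIndex
  act_mul : ∀ X, ∀ g ∈ dom X, ∀ h ∈ dom X, ∀ c, act X (g * h) c = act X g (act X h c)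
  aut : ∀ X, ∀ g ∈ dom X, IsAut (χ g) (act X g)
  map : ∀ (X Y : 𝒱.Obj) (f : X ⟶ Y) F, IsPull L f F →
    UpToFin (dom X ⊓ dom Y) fun g => Comm F (act X g) (act Y g)
  cyc : ∀ (X : 𝒱.Obj) (j : ℕ) (z : X.Cycles), X.IsCyc j z →
    UpToFin (dom X) fun g => MulBy (χ g) j (incl L (W.cl X z)) (act X g)

attribute [instance] GaloisAction.group

variable {W L}

/-- The Tate classes of codimension `j` on `X`: the classes `c` of degree `2 j` such that `g c` is
`χ(g) ^ j c` for all `g` in a subgroup of finite index. -/
def IsTate (G : GaloisAction.{u, v, w} W L) (X : 𝒱.Obj) (j : ℕ) (c : HT W L X) : Prop :=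
  HasDeg L (2 * j) c ∧ UpToFin (G.dom X) fun g => MulBy (G.χ g) j c (G.act X g)

/-- The number of linearly independent Tate classes (of all codimensions) on `X`. -/
noncomputable def tateDim (G : GaloisAction.{u, v, w} W L) (X : 𝒱.Obj) : ℕ :=
  Set.finrank L {c | ∃ j, IsTate G X j c}

/-- The set `s` of Tate classes, for `S` a set of classes of each codimension: all Tate classes of
codimension `j` on `X` are linear combinations, with coefficients in `L`, of the classes in `S`. -/
def SpannedBy (G : GaloisAction.{u, v, w} W L) (X : 𝒱.Obj) (j : ℕ) (S : Set (W.H X)) : Prop :=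
  ∀ c, IsTate G X j c → c ∈ Submodule.span L (incl L '' S)

/-- The classes of the algebraic cycles of codimension `j` on `X`. -/
def algClass (W : WeilCohomology.{u, v} ops) (X : 𝒱.Obj) (j : ℕ) : Set (W.H X) :=
  {c | ∃ z, X.IsCyc j z ∧ W.cl X z = c}

/-- The class `c` is a linear combination of classes of algebraic cycles of codimension `j`. -/
def InAlgSpan (W : WeilCohomology.{u, v} ops) (X : 𝒱.Obj) (j : ℕ) (c : W.H X) : Prop :=
  c ∈ Submodule.span W.K (algClass W X j)

/-- The Tate conjecture for `X`, in all codimensions `j`: all Tate classes are linear combinations,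
with coefficients in `L`, of classes of algebraic cycles. -/
def TateConj (G : GaloisAction.{u, v, w} W L) (X : 𝒱.Obj) : Prop :=
  ∀ j, SpannedBy G X j (algClass W X j)

/-- All classes with the property `P` on all powers of `X` are linear combinations of classes of
algebraic cycles. -/
def AlgOnPowers (P : Property W) (X : 𝒱.Obj) : Prop :=
  ∀ n j c, P (pw X n) j c → InAlgSpan W (pw X n) j c

/-- All classes with the property `P` on all powers of `X` are motivated. -/
def MotOnPowers (P : Property W) (X : 𝒱.Obj) : Prop :=
  ∀ n j c, P (pw X n) j c → IsMotivated W (pw X n) j c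

/-- All Tate classes on all powers of `X` are linear combinations, with coefficients in `L`, of
motivated classes. -/
def TateAreMotivated (G : GaloisAction.{u, v, w} W L) (X : 𝒱.Obj) : Prop :=
  ∀ n j, SpannedBy G (pw X n) j {a | IsMotivated W (pw X n) j a}

/-- The Tate conjecture for all powers of `X`. -/
def TateOnPowers (G : GaloisAction.{u, v, w} W L) (X : 𝒱.Obj) : Prop :=
  ∀ n, TateConj G (pw X n)

/-- A system of classes: a property of classes of degree `2 j` which is satisfied by the classes of
the algebraic cycles and stable under linear combinations, products, pull-backs, push-forwards and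
the inverse of the Lefschetz isomorphisms. -/
structure IsGradedSystem (P : Property W) : Prop where
  sys : IsSystem P
  deg : ∀ Y j c, P Y j c → c ∈ W.gr Y (2 * j)

end Pool.Agent.H694.LA
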