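import Pool.Agent.H694.TT.Defs
import Pool.Agent.R920.MT.Main
import Pool.Agent.H914R2.PDesc
import Pool.Agent.Y133.Half.PairBase

/-!
# Motivated classes and the extension of the coefficients
-/

open CategoryTheory AlgebraicGeometry TensorProduct

universe u v w

namespace Pool.Agent.H694.TT

open Module
open Pool.Agent.H914 Pool.Agent.H914.VarClass Pool.Agent.H914.VarClass.Obj
  Pool.Agent.H914.WeilCohomology Pool.Agent.R920.MT
open Pool.Agent.Y133.Half (ClassPred Sys dimBy)

section Alg

variable {K : Type*} [Field K] {A : Type*} [Ring A] [Algebra K A] {L : Type*} [Field L]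
  [Algebra K L]

/-- A functional on the coefficients which is one at one. -/
lemma exists_functional (K L : Type*) [Field K] [Field L] [Algebra K L] :
    ∃ f : L →ₗ[K] K, f 1 = 1 := by
  obtain ⟨f, hf⟩ := (LinearMap.toSpanSingleton K L 1).exists_leftInverse_of_injective (by
    rw [LinearMap.ker_eq_bot']
    intro c hc
    rw [LinearMap.toSpanSingleton_apply, smul_eq_zero] at hc
    exact hc.resolve_right one_ne_zero)
  refine ⟨f, ?_⟩
  have := LinearMap.congr_fun hf 1
  simpa using this

/-- The retraction of `L ⊗ V` on `V`. -/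
noncomputable def retr {V : Type*} [AddCommGroup V] [Module K V] (f : L →ₗ[K] K) :
    L ⊗[K] V →ₗ[K] V :=
  (TensorProduct.lid K V).toLinearMap ∘ₗ f.rTensor V

lemma retr_tmul {V : Type*} [AddCommGroup V] [Module K V] (f : L →ₗ[K] K) (l : L) (a : V) :
    retr f (l ⊗ₜ[K] a) = f l • a := by
  rw [retr, LinearMap.comp_apply, LinearMap.rTensor_tmul, LinearEquiv.coe_coe,
    TensorProduct.lid_tmul]

lemma powMul_tmul (a : A) (m : ℕ) (l : L) (x : A) :
    ((1 : L) ⊗ₜ[K] a) ^ m * (l ⊗ₜ[K] x) = l ⊗ₜ[K] (a ^ m * x) := by
  rw [Algebra.TensorProduct.tmul_pow, one_pow, Algebra.TensorProduct.tmul_mul_tmul, one_mul]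

lemma retr_powMul (f : L →ₗ[K] K) (a : A) (m : ℕ) (x : L ⊗[K] A) :
    retr f (((1 : L) ⊗ₜ[K] a) ^ m * x) = a ^ m * retr f x := by
  refine tmul_induction (P := fun x => retr f (((1 : L) ⊗ₜ[K] a) ^ m * x) = a ^ m * retr f x)
    ?_ ?_ ?_ x
  · rw [mul_zero, map_zero, mul_zero]
  · intro x y hx hy; rw [mul_add, map_add, map_add, hx, hy, mul_add]
  · intro l b
    rw [powMul_tmul, retr_tmul, retr_tmul, mul_smul_comm]

lemma retr_mem (f : L →ₗ[K] K) {p : Submodule K A} {x : L ⊗[K] A} (hx : x ∈ p.baseChange L) :
    retr f x ∈ p := by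
  refine base_induction (P := fun x => retr f x ∈ p) ?_ ?_ ?_ hx
  · rw [map_zero]; exact p.zero_mem
  · intro x y hx hy; rw [map_add]; exact p.add_mem hx hy
  · intro l a ha
    rw [retr_tmul]; exact p.smul_mem _ ha

/-- Descent of the hard Lefschetz property. -/
lemma hardLef_descend {gr : ℕ → Submodule K A} {n : ℕ} {a : A}
    (h : HardLef (fun i => (gr i).baseChange L) n (LinearMap.mulLeft L ((1 : L) ⊗ₜ[K] a))) :
    HardLef gr n (LinearMap.mulLeft K a) := by
  intro i hi
  obtain ⟨h1, h2⟩ := h i hi
  obtain ⟨f, hf⟩ := exists_functional K L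
  constructor
  · intro x hx h0
    rw [LinearMap.pow_mulLeft, LinearMap.mulLeft_apply] at h0
    refine tmul_injective (K := K) (L := L) x ?_
    refine h1 ((1 : L) ⊗ₜ[K] x) (Submodule.tmul_mem_baseChange_of_mem _ hx) ?_
    rw [LinearMap.pow_mulLeft, LinearMap.mulLeft_apply, powMul_tmul, h0, tmul_zero]
  · intro b hb
    obtain ⟨x, hx, hxb⟩ := h2 ((1 : L) ⊗ₜ[K] b) (Submodule.tmul_mem_baseChange_of_mem _ hb)
    refine ⟨retr f x, retr_mem f hx, ?_⟩
    rw [LinearMap.pow_mulLeft, LinearMap.mulLeft_apply] at hxb ⊢
    rw [← retr_powMul, hxb, retr_tmul, hf, one_smul]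

end Alg

variable {k : Type u} [Field k] {𝒱 : VarClass k} {ops : CycleOps 𝒱}
  {W : WeilCohomology.{u, v} ops} {L : Type v} [Field L] [Algebra W.K L] {X Y : 𝒱.Obj}

/-- The space of the motivated classes of degree `2 j`. -/
def motDeg (W : WeilCohomology.{u, v} ops) (X : 𝒱.Obj) (j : ℕ) : Submodule W.K (W.H X) where
  carrier := {c | IsMotivated W X j c}
  add_mem' := (motPred W).add
  zero_mem' := (motPred W).zero
  smul_mem' := fun r _ h => (motPred W).smul r h

lemma mem_motDeg {j : ℕ} {c : W.H X} : c ∈ motDeg W X j ↔ IsMotivated W X j c := Iff.rfl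

variable (L) in
/-- The extension of the property of being motivated. -/
def extMot (W : WeilCohomology.{u, v} ops) [Algebra W.K L] : Property (baseW W L) :=
  fun X j x => (show L ⊗[W.K] W.H X from x) ∈ (motDeg W X j).baseChange L

variable (L) in
/-- The element `l ⊗ a`. -/
def ten (l : L) (a : W.H X) : (baseW W L).H X := (l ⊗ₜ[W.K] a : L ⊗[W.K] W.H X)

lemma base_ind {p : Submodule W.K (W.H X)} {P : (baseW W L).H X → Prop} (h0 : P 0)
    (hadd : ∀ x y, P x → P y → P (x + y)) (h : ∀ (l : L), ∀ a ∈ p, P (ten L l a))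
    {x : (baseW W L).H X} (hx : (show L ⊗[W.K] W.H X from x) ∈ p.baseChange L) : P x :=
  base_induction (P := fun x : L ⊗[W.K] W.H X => P x) h0 hadd h hx

lemma ten_mem {p : Submodule W.K (W.H X)} (l : L) {a : W.H X} (ha : a ∈ p) :
    (show L ⊗[W.K] W.H X from ten L l a) ∈ p.baseChange L :=
  Submodule.tmul_mem_baseChange_of_mem _ ha

section Maps

variable {f : X ⟶ Y}

lemma ten_add (l : L) (a b : W.H X) : ten L l (a + b) = ten L l a + ten L l b :=
  TensorProduct.tmul_add _ _ _

lemma ten_zero (l : L) : ten L l (0 : W.H X) = 0 := TensorProduct.tmul_zero _ _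

lemma ten_smul (l : L) (r : W.K) (a : W.H X) :
    ten L l (r • a) = ten L (algebraMap W.K L r * l) a := by
  unfold ten
  rw [TensorProduct.tmul_smul, TensorProduct.smul_tmul', Algebra.smul_def]

lemma bmap_tmul (f : X ⟶ Y) (l : L) (a : W.H Y) :
    (baseW W L).map f (ten L l a) = ten L l (W.map f a) :=
  Algebra.TensorProduct.map_tmul _ _ _ _

lemma bpush_tmul (f : X ⟶ Y) (l : L) (a : W.H X) :
    (baseW W L).push f (ten L l a) = ten L l (W.push f a) :=
  LinearMap.baseChange_tmul _ _ _

lemma bmul_tmul (l m : L) (a b : W.H X) : ten L l a * ten L m b = ten L (l * m) (a * b) :=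
  Algebra.TensorProduct.tmul_mul_tmul _ _ _ _

lemma bsmul_tmul (l : (baseW W L).K) (m : L) (a : W.H X) :
    l • ten L m a = ten L ((show L from l) * m) a :=
  TensorProduct.smul_tmul' (show L from l) m a

lemma bpowMul_tmul (D : X.Cycles) (m : ℕ) (l : L) (a : W.H X) :
    powMul ((baseW W L).cl X D) m (ten L l a) = ten L l (powMul (W.cl X D) m a) :=
  powMul_tmul (K := W.K) (L := L) (W.cl X D) m l a

end Maps

/-- Motivated classes are motivated after the extension of the coefficients. -/
lemma mot_base {j : ℕ} {c : W.H X} (hc : IsMotivated W X j c) :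
    IsMotivated (baseW W L) X j (ten L 1 c) := by
  refine hc (fun X j c => IsMotivated (baseW W L) X j (ten L 1 c)) ?_
  constructor
  · intro X j
    refine ⟨{ carrier := {c | IsMotivated (baseW W L) X j (ten L 1 c)}
              add_mem' := ?_
              zero_mem' := ?_
              smul_mem' := ?_ }, fun _ => Iff.rfl⟩
    · intro a b ha hb
      have h := (motPred (baseW W L)).add ha hb
      rw [← ten_add] at h
      exact h
    · have h : (motPred (baseW W L)).P X j 0 := (motPred (baseW W L)).zero
      rw [← ten_zero (1 : L)] at h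
      exact h
    · intro r a ha
      have h := (motPred (baseW W L)).smul
        (show (baseW W L).K from algebraMap W.K L r) ha
      rw [bsmul_tmul] at h
      change IsMotivated (baseW W L) X j (ten L 1 (r • a))
      rw [ten_smul]
      exact h
  · intro X j z hz
    exact (motPred (baseW W L)).cl hz
  · intro X i j a b ha hb
    have h := (motPred (baseW W L)).mul ha hb
    rw [bmul_tmul, mul_one] at h
    exact h
  · intro X Y f j a ha
    have h := (motPred (baseW W L)).map f ha
    rw [bmap_tmul] at h
    exact h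
  · intro X Y f j l a hl ha
    have h := (motPred (baseW W L)).push f hl ha
    rw [bpush_tmul] at h
    exact h
  · intro X D j hD hL hj x hx h
    refine IsMotivated.lift hD (base_hardLefschetz hD hL) hj
      (ten_mem 1 hx) ?_
    have e := bpowMul_tmul (W := W) (L := L) D (X.dim - 2 * j) 1 x
    unfold powMul at e h
    rw [e]
    exact h

lemma mot_tmul {j : ℕ} {c : W.H X} (hc : IsMotivated W X j c) (l : L) :
    IsMotivated (baseW W L) X j (ten L l c) := by
  have h := (motPred (baseW W L)).smul (show (baseW W L).K from l) (mot_base (L := L) hc)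
  rw [bsmul_tmul, mul_one] at h
  exact h

/-- The classes which are motivated after the extension of the coefficients. -/
lemma isSystem_ext : IsSystem (extMot L W) := by
  constructor
  · intro X j
    exact ⟨(motDeg W X j).baseChange L, fun _ => Iff.rfl⟩
  · intro X j z hz
    exact Submodule.tmul_mem_baseChange_of_mem _ ((motPred W).cl hz)
  · intro X i j a b ha hb
    refine base_ind (P := fun a => extMot L W X (i + j) (a * b)) ?_ ?_ ?_ ha
    · rw [zero_mul]; exact Submodule.zero_mem _
    · intro x y hx hy
      rw [add_mul]; exact Submodule.add_mem _ hx hy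
    · intro l a ha
      refine base_ind (P := fun b => extMot L W X (i + j) (ten L l a * b)) ?_ ?_ ?_ hb
      · rw [mul_zero]; exact Submodule.zero_mem _
      · intro x y hx hy
        rw [mul_add]; exact Submodule.add_mem _ hx hy
      · intro m b hb
        rw [bmul_tmul]
        exact ten_mem _ ((motPred W).mul ha hb)
  · intro X Y f j a ha
    refine base_ind (P := fun a => extMot L W X j ((baseW W L).map f a)) ?_ ?_ ?_ ha
    · rw [map_zero]; exact Submodule.zero_mem _
    · intro x y hx hy
      rw [map_add]; exact Submodule.add_mem _ hx hy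
    · intro l a ha
      rw [bmap_tmul]
      exact ten_mem _ ((motPred W).map f ha)
  · intro X Y f j l a hl ha
    refine base_ind (P := fun a => extMot L W Y l ((baseW W L).push f a)) ?_ ?_ ?_ ha
    · rw [map_zero]; exact Submodule.zero_mem _
    · intro x y hx hy
      rw [map_add]; exact Submodule.add_mem _ hx hy
    · intro m a ha
      rw [bpush_tmul]
      exact ten_mem _ ((motPred W).push f hl ha)
  · intro X D j hD hL hj x hx h
    have hLW : HardLefschetz W X D := hardLef_descend (L := L) hL
    -- the classes of the complementary degree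
    have hsurj : ∀ y : (baseW W L).H X,
        (show L ⊗[W.K] W.H X from y) ∈ (motDeg W X (X.dim - j)).baseChange L →
        ∃ x' : (baseW W L).H X, (show L ⊗[W.K] W.H X from x') ∈ (motDeg W X j).baseChange L ∧
          powMul ((baseW W L).cl X D) (X.dim - 2 * j) x' = y := by
      intro y hy
      refine base_ind (P := fun y => ∃ x' : (baseW W L).H X,
          (show L ⊗[W.K] W.H X from x') ∈ (motDeg W X j).baseChange L ∧
          powMul ((baseW W L).cl X D) (X.dim - 2 * j) x' = y) ?_ ?_ ?_ hy
      · exact ⟨0, Submodule.zero_mem _, mul_zero _⟩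
      · rintro _ _ ⟨x', hx', rfl⟩ ⟨y', hy', rfl⟩
        refine ⟨x' + y', Submodule.add_mem _ hx' hy', ?_⟩
        unfold powMul
        rw [mul_add]
      · intro l a ha
        have ha0 : a ∈ W.gr X (2 * X.dim - 2 * j) := by
          have := (motPred W).gr ha
          rwa [show 2 * (X.dim - j) = 2 * X.dim - 2 * j by omega] at this
        obtain ⟨b, hb, hba⟩ := (hLW (2 * j) hj).2 a ha0
        rw [LinearMap.pow_mulLeft, LinearMap.mulLeft_apply] at hba
        have hb2 : IsMotivated W X j b :=
          IsMotivated.lift hD hLW hj hb (by rw [hba]; exact ha)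
        refine ⟨ten L l b, ten_mem _ hb2, ?_⟩
        rw [bpowMul_tmul]
        unfold powMul
        rw [hba]
    obtain ⟨x', hx', hxx⟩ := hsurj _ h
    have hx'gr : x' ∈ (baseW W L).gr X (2 * j) := by
      refine Submodule.baseChange_mono L ?_ hx'
      intro c hc
      exact IsMotivated.gr hc
    have h7 : x - x' = 0 := by
      refine (hL (2 * j) hj).1 _ (Submodule.sub_mem _ hx hx'gr) ?_
      rw [LinearMap.pow_mulLeft, LinearMap.mulLeft_apply]
      have h8 : (baseW W L).cl X D ^ (X.dim - 2 * j) * x' =
          (baseW W L).cl X D ^ (X.dim - 2 * j) * x := hxx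
      rw [mul_sub, h8, sub_self]
    have h9 : x = x' := sub_eq_zero.1 h7
    rw [h9]
    exact hx'

/-- The motivated classes after the extension of the coefficients are the linear combinations of
motivated classes. -/
lemma mot_iff {j : ℕ} {x : (baseW W L).H X} :
    IsMotivated (baseW W L) X j x ↔
      (show L ⊗[W.K] W.H X from x) ∈ (motDeg W X j).baseChange L := by
  constructor
  · intro h
    exact h _ isSystem_ext
  · intro h
    refine base_ind (P := fun x => IsMotivated (baseW W L) X j x) ?_ ?_ ?_ h
    · exact (motPred (baseW W L)).zero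
    · intro x y hx hy
      exact (motPred (baseW W L)).add hx hy
    · intro l a ha
      exact mot_tmul ha l

lemma motDeg_le (j : ℕ) : motDeg W X j ≤ (motPred W).sys.C X := fun _ hc =>
  Pool.Agent.Y133.Half.ClassPred.sp_of (Q := motPred W) hc

lemma sys_base (X : 𝒱.Obj) :
    (motPred (baseW W L)).sys.C X = ((motPred W).sys.base L).C X := by
  apply le_antisymm
  · intro x hx
    refine Pool.Agent.Y133.Half.ClassPred.sp_ind (Q := motPred (baseW W L))
      (q := fun x => x ∈ ((motPred W).sys.base L).C X) ?_ ?_ ?_ hx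
    · intro j x hx
      exact Submodule.baseChange_mono L (motDeg_le j) (mot_iff.1 hx)
    · exact Submodule.zero_mem _
    · intro a b ha hb; exact Submodule.add_mem _ ha hb
  · intro x hx
    refine base_ind (P := fun x => x ∈ (motPred (baseW W L)).sys.C X) ?_ ?_ ?_ hx
    · exact Submodule.zero_mem _
    · intro a b ha hb; exact Submodule.add_mem _ ha hb
    · intro l a ha
      refine Pool.Agent.Y133.Half.ClassPred.sp_ind (Q := motPred W)
        (q := fun a => ten L l a ∈ (motPred (baseW W L)).sys.C X) ?_ ?_ ?_ ha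
      · intro j a ha
        exact Pool.Agent.Y133.Half.ClassPred.sp_of (Q := motPred (baseW W L)) (mot_tmul ha l)
      · rw [ten_zero]; exact Submodule.zero_mem _
      · intro a b ha hb
        rw [ten_add]; exact Submodule.add_mem _ ha hb

lemma dimBy_base (X : 𝒱.Obj) :
    dimBy (baseW W L) (IsMotivated (baseW W L)) X = dimBy W (IsMotivated W) X := by
  have h1 := Pool.Agent.Y133.Half.ClassPred.dimBy_eq (motPred (baseW W L)) X
  have h2 := Pool.Agent.Y133.Half.ClassPred.dimBy_eq (motPred W) X
  have h3 := Sys.finrank_base (S := (motPred W).sys) L X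
  rw [← sys_base] at h3
  exact h1.trans (h3.trans h2.symm)

lemma nondeg_base (h : (motPred W).sys.Nondeg X) : (motPred (baseW W L)).sys.Nondeg X := by
  have h1 := Sys.Nondeg.base (L := L) h
  intro x hx hxy
  refine h1 x ?_ ?_
  · rw [← sys_base]; exact hx
  · rw [← sys_base]; exact hxy

end Pool.Agent.H694.TT
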