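import Pool.Agent.H694.TT.LDefs
import Pool.Agent.H694.TT.MotBase
import Pool.Agent.H694.TT.Pred

/-!
# Galois actions and the extension of the coefficients
-/

open CategoryTheory AlgebraicGeometry TensorProduct

universe u v w

namespace Pool.Agent.H694.LA

open Pool.Agent.H914 Pool.Agent.H914.VarClass Pool.Agent.H914.VarClass.Obj
  Pool.Agent.H914.WeilCohomology Pool.Agent.R920.MT

variable {k : Type u} [Field k] {𝒱 : VarClass k} {ops : CycleOps 𝒱}
  {W : WeilCohomology.{u, v} ops} {L : Type v} [Field L] [Algebra W.K L] {X Y : 𝒱.Obj}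

lemma degT_eq (X : 𝒱.Obj) (i : ℕ) :
    Submodule.span L (incl L '' (W.gr X i : Set (W.H X))) = (W.gr X i).baseChange L := by
  rw [Submodule.baseChange_eq_span, Submodule.map_coe]
  rfl

lemma mem_degT {i : ℕ} {c : HT W L X} : HasDeg L i c ↔ c ∈ (baseW W L).gr X i := by
  unfold HasDeg
  rw [degT_eq]
  rfl

lemma map_lin {A B : Type*} [Ring A] [Algebra L A] [Ring B] [Algebra L B] (F : A →ₐ[L] B) (l : L)
    (b c : A) : F (b + l • c) = F b + l • F c := by
  rw [map_add, map_smul]

lemma IsAut.add {x : L} {s : HT W L X → HT W L X} (h : IsAut x s) (b c : HT W L X) :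
    s (b + c) = s b + s c := by
  have := h.lin 1 b c
  rwa [one_smul, one_smul] at this

lemma IsAut.smul {x : L} {s : HT W L X → HT W L X} (h : IsAut x s) (l : L) (c : HT W L X) :
    s (l • c) = l • s c := by
  have h0 : s 0 = 0 := by
    have := h.add 0 0
    rw [add_zero] at this
    exact left_eq_add.1 this
  have := h.lin l 0 c
  rwa [zero_add, h0, zero_add] at this

/-- The automorphism. -/
noncomputable def autEquiv {x : L} {s : HT W L X → HT W L X} (h : IsAut x s) :
    HT W L X ≃ₐ[L] HT W L X :=
  AlgEquiv.ofBijective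
    (AlgHom.ofLinearMap
      { toFun := s
        map_add' := h.add
        map_smul' := h.smul }
      (by
        obtain ⟨b, hb⟩ := h.bij.2 1
        change s 1 = 1
        have h1 : s 1 * s b = s b := by rw [← h.mul, one_mul]
        rw [hb, mul_one] at h1
        exact h1)
      h.mul)
    h.bij

lemma autEquiv_apply {x : L} {s : HT W L X → HT W L X} (h : IsAut x s) (c : HT W L X) :
    autEquiv h c = s c := rfl

variable (G : GaloisAction.{u, v, w} W L)

/-- The character. -/
noncomputable def chiHom : G.Γ →* Lˣ :=
  MonoidHom.mk' (fun g => Units.mk0 (G.χ g) (G.ne g)) fun g h => Units.ext (G.char g h)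

lemma chiHom_apply (g : G.Γ) : ((chiHom G g : Lˣ) : L) = G.χ g := rfl

/-- The action of the subgroup. -/
noncomputable def actHom (X : 𝒱.Obj) : G.dom X →* (HT W L X ≃ₐ[L] HT W L X) :=
  MonoidHom.mk' (fun g => autEquiv (G.aut X g g.2)) fun g h =>
    AlgEquiv.ext fun c => G.act_mul X g g.2 h h.2 c

lemma actHom_apply (X : 𝒱.Obj) (g : G.dom X) (c : HT W L X) :
    actHom G X g c = G.act X g c := rfl

/-- The action on the theory with the extended coefficients. -/
noncomputable def toSys : TT.GaloisSystem.{u, v, w} (baseW W L) where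
  Γ := G.Γ
  χ := chiHom G
  dom := G.dom
  ρ := actHom G
  acts X :=
    { finite := G.finite X
      gr_mem := fun g i a ha => mem_degT.1 ((G.aut X g g.2).deg i a (mem_degT.2 ha))
      tr_act := by
        intro g a
        have htop : a ∈ ⨆ i, (baseW W L).gr X i := by
          rw [((baseW W L).isInternal X).submodule_iSup_eq_top]
          exact Submodule.mem_top
        refine Submodule.iSup_induction ((baseW W L).gr X)
          (motive := fun a => (baseW W L).tr X (actHom G X g a) =
            (show (baseW W L).K from ((chiHom G g : Lˣ) : L)) ^ X.dim * (baseW W L).tr X a)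
          htop ?_ ?_ ?_
        · intro i a ha
          by_cases hi : i = 2 * X.dim
          · subst hi
            have h := (G.aut X g g.2).top a (mem_degT.2 ha)
            have h2 : actHom G X g a =
              ((show (baseW W L).K from ((chiHom G g : Lˣ) : L)) ^ X.dim •
                (a : (baseW W L).H X)) := h
            rw [h2, map_smul, smul_eq_mul]
          · have h1 : (baseW W L).tr X a = 0 := (baseW W L).tr_eq_zero ha hi
            have h2 : (baseW W L).tr X (actHom G X g a) = 0 :=
              (baseW W L).tr_eq_zero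
                (mem_degT.1 ((G.aut X g g.2).deg i a (mem_degT.2 ha))) hi
            rw [h1, h2, mul_zero]
        · have h0 : actHom G X g (0 : HT W L X) = 0 := map_zero _
          have h1 : (baseW W L).tr X (0 : (baseW W L).H X) = 0 := map_zero _
          have h2 : (baseW W L).tr X (actHom G X g (0 : HT W L X)) = 0 := by rw [h0]; exact h1
          exact h2.trans (by rw [h1, mul_zero])
        · intro a b ha hb
          have h0 : actHom G X g ((a : HT W L X) + b) = actHom G X g a + actHom G X g b :=
            map_add _ _ _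
          have h1 : (baseW W L).tr X (actHom G X g ((a : HT W L X) + b)) =
              (baseW W L).tr X (actHom G X g a) + (baseW W L).tr X (actHom G X g b) := by
            rw [h0]; exact map_add _ _ _
          rw [map_add, mul_add, ← ha, ← hb]
          exact h1 }
  map_act {X Y} f := by
    obtain ⟨Δ, hΔ, h⟩ := G.map X Y f (mapBase L (W.map f))
      ⟨fun l b c => map_lin (mapBase L (W.map f)) l b c,
        fun b => Algebra.TensorProduct.map_tmul _ _ _ _⟩
    refine ⟨Δ, hΔ, fun g g' hgg hg b => ?_⟩
    have h1 := h g hg ⟨g.2, hgg ▸ g'.2⟩ b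
    rw [hgg] at h1
    have h2 : G.act X g ((baseW W L).map f b) = (baseW W L).map f (G.act Y g' b) := by
      rw [hgg]; exact h1
    exact h2
  cl_act {X j z} hz := by
    obtain ⟨Δ, hΔ, h⟩ := G.cyc X j z hz
    exact ⟨Δ, hΔ, fun g hg => h g.1 hg g.2⟩

lemma isTate_iff {j : ℕ} {c : HT W L X} :
    IsTate G X j c ↔ TT.IsTate (toSys G) X j c := by
  unfold IsTate TT.IsTate
  rw [mem_degT]
  refine and_congr_right fun _ => ?_
  constructor
  · rintro ⟨Δ, hΔ, h⟩
    exact ⟨Δ, hΔ, fun g hg => h g.1 hg g.2⟩
  · rintro ⟨Δ, hΔ, h⟩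
    exact ⟨Δ, hΔ, fun g hg hd => h ⟨g, hd⟩ hg⟩

end Pool.Agent.H694.LA
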